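import Pool.Agent.H55HC.SLsc

/-!
# Inner normals of surfaces in the four-ball: an integral formula, and a characterisation of the number of local maxima

Let `F` be a compact smooth surface (of any genus), properly and transversally embedded in the unit ball of four-space, and let `ξ` be
a point of the unit sphere. An inner normal of `F` with point at infinity `ξ` is a pair `(p, n)`, `p` an interior point of `F` and `n`
a unit normal vector of `F` at `p`, such that the horosphere (sphere inside the unit ball which touches the unit sphere) through `p`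
with inner normal `n` touches the unit sphere in `ξ`, and such that `F` curves at `p` more strongly towards `n` than this horosphere
in all tangential directions (in the hyperbolic metric of the ball: both principal curvatures in the direction `n` are larger than
`1`). Let `N(ξ)` be the number of the inner normals with point at infinity `ξ`.

The starting files of this problem prove that `F` can be changed (by a diffeomorphism near `F` which is the identity on the boundary,
so without a change of the genus) into a surface with at most `m` local maxima of the distance from the origin if its total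
horospherical curvature is less than `2 π² (m + 1)`, and that it can be changed into a ribbon surface (no local maxima) iff it can be
changed into a surface of total horospherical curvature less than `2 π²`. Here we prove:

1. For **almost every** `ξ` the number of the local maxima of the distance from the origin on the surface `push ξ '' F` (obtained from
   `F` by such a diffeomorphism) is exactly `N(ξ)`, and the distance is a Morse function.
2. For **every** Borel set `E` the integral of `N` over `E` is the horospherical curvature of `F` towards `E`, that is, the integral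
   of the density over the unit normal vectors whose points at infinity are in `E`. For `E` the whole sphere this is the total
   horospherical curvature of the starting files.
3. If for **some** Borel set `E` the curvature towards `E` is less than `(m + 1) |E|` then some `ξ` in `E` gives a surface with at most
   `m` local maxima.
4. If `F` cannot be changed into a surface with at most `m` local maxima then `N(ξ) ≥ m + 1` for almost every `ξ`, and the curvature
   of `F` towards `E` is at least `(m + 1) |E|` for all Borel sets `E`.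
5. `N` is lower semicontinuous on the sphere: it does not drop under small changes of the point at infinity.
6. Quantisation: for almost every `ξ` the number `N(ξ)` is finite and `N` is constant near `ξ`; for all Borel sets `E` near `ξ` the
   curvature of `F` towards `E` is the integer multiple `N(ξ) |E|` of the measure of `E`.
7. For every single surface `F` and every `m` the following are equivalent: for some `ξ` the surface `push ξ '' F` is Morse with at
   most `m` local maxima; the curvature towards some Borel set `E` is less than `(m + 1) |E|`; `N ≤ m` on a set of positive measure;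
   `N(η) ≤ m` for **all** `η` of some **open** part of the sphere.
8. For all `F` and `m` the following are equivalent: `F` can be changed into a surface which misses the origin and has at most `m`
   local maxima; `F` can be changed into a surface with one of the last three properties of 7.
9. `F` can be changed into a ribbon surface iff it can be changed into a surface without inner normals.

So the ribbon genus of a knot is the smallest genus of a surface in the ball bounded by the knot which has no inner normals with
points at infinity in some open part of the sphere.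
-/

set_option autoImplicit false

namespace Pool.Agent.Results.MP_177a0e_gt.SurfaceInnerNormals

open Pool.Agent.Y503.RB
open scoped RealInnerProductSpace ENNReal
open MeasureTheory Set Metric

/-- `n` is an inner normal of the surface `F` at the interior point `p`. -/
def InnerNormalAt (F : Set E4) (p n : E4) : Prop :=
  ‖p‖ < 1 ∧ ‖n‖ = 1 ∧ ∃ (φ : ℂ → E4) (U : Set ℂ) (V : Set E4) (z : ℂ), BPatch φ U ∧ IsOpen V ∧
    p ∈ V ∧ F ∩ V = φ '' U ∧ z ∈ U ∧ φ z = p ∧ (∀ v : ℂ, ⟪n, d1 φ v z⟫ = 0) ∧ Inner φ n z

/-- The inner normals of `F` with point at infinity `ξ`. -/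
def InnerNormals (F : Set E4) (ξ : E4) : Set (E4 × E4) := {q | InnerNormalAt F q.1 q.2 ∧ foot q.1 q.2 = ξ}

/-- The density of the horospherical curvature in the direction of the unit normal vector `n`, if the point at infinity of `n` is in
`E`. -/
noncomputable def densityTowards (φ : ℂ → E4) (E : Set E4) (n : E4) (z : ℂ) : ℝ≥0∞ :=
  E.indicator (fun _ => ENNReal.ofReal (dens φ n z)) (foot (φ z) n)

/-- The integral of the density over the circle of unit normal vectors at `φ z`. (All `L` in the supremum give the same value, see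
the first part of the theorem.) -/
noncomputable def curvatureTowardsAt (φ : ℂ → E4) (E : Set E4) (z : ℂ) : ℝ≥0∞ :=
  ⨆ (L : ℂ →ₗᵢ[ℝ] E4) (_ : ∀ w v : ℂ, ⟪L w, d1 φ v z⟫ = 0),
    ∫⁻ θ in Ico 0 (2 * Real.pi), densityTowards φ E (L ⟨Real.cos θ, Real.sin θ⟩) z

/-- The horospherical curvature of the surface `F` towards `E`: infimum over all countable families of parametrised pieces of `F`
which cover the part of `F` in the open ball. -/
noncomputable def curvatureTowards (F : Set E4) (E : Set E4) : ℝ≥0∞ :=
  ⨅ (φ : ℕ → ℂ → E4) (U : ℕ → Set ℂ) (A : ℕ → Set ℂ)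
    (_ : (∀ i, Patch (φ i) (U i) ∧ φ i '' U i ⊆ F ∧ MeasurableSet (A i) ∧ A i ⊆ U i) ∧
      F ∩ ball 0 1 ⊆ ⋃ i, φ i '' A i),
    ∑' i, ∫⁻ z in A i, curvatureTowardsAt (φ i) E z

/-- The surface measure of the unit sphere. -/
noncomputable abbrev sph : Measure (sphere (0 : E4) 1) := (volume : Measure E4).toSphere

/-- The part of the unit sphere in `E`. -/
def capOf (E : Set E4) : Set (sphere (0 : E4) 1) := {ξ | (ξ : E4) ∈ E}

/-- The map `push ξ` can be applied to the surface `F`, and gives a surface of the same type. -/
def Pushes (F : Set E4) (ξ : E4) : Prop := ξ ∉ F ∧ PSurf (push ξ '' F) ∧ SameType F (push ξ '' F)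

/-- The local maxima of the distance from the origin in the open ball. -/
def maxima (F : Set E4) : Set E4 := {p | p ∈ F ∧ ‖p‖ < 1 ∧ IsLocalMaxOn (fun x => ‖x‖) F p}

/-- The surface `F` can be changed into `F'`. -/
def ChangesTo (F F' : Set E4) : Prop := PSurf F' ∧ SameType F F'

/-- The definition of the curvature does not depend on the parametrisation of the normal circle. -/
def IndependentOfCircle : Prop :=
  ∀ (φ : ℂ → E4) (U : Set ℂ), Patch φ U → ∀ z ∈ U, ∀ (E : Set E4) (L : ℂ →ₗᵢ[ℝ] E4),
    (∀ w v : ℂ, ⟪L w, d1 φ v z⟫ = 0) →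
    ∫⁻ θ in Ico 0 (2 * Real.pi), densityTowards φ E (L ⟨Real.cos θ, Real.sin θ⟩) z =
      curvatureTowardsAt φ E z

/-- 1: for almost every point at infinity `ξ` the number of the local maxima of the distance from the origin on the pushed surface is
the number of the inner normals with point at infinity `ξ`, and the distance is a Morse function. -/
def AlmostEveryPoint (F : Set E4) : Prop :=
  ∀ᵐ ξ : sphere (0 : E4) 1 ∂sph, Pushes F ξ ∧ (maxima (push ξ '' F)).encard = (InnerNormals F ξ).encard ∧
    ∀ m : ℕ, MorseSurf (push ξ '' F) m ↔ (InnerNormals F ξ).encard ≤ m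

/-- 2: the integral formula. -/
def IntegralFormula (F : Set E4) : Prop :=
  (∀ E : Set E4, MeasurableSet E →
    ∫⁻ ξ in capOf E, ((InnerNormals F ξ).encard : ℝ≥0∞) ∂sph = curvatureTowards F E) ∧
  curvatureTowards F univ = totalCurv F

/-- 3: the local criterion. -/
def LocalCriterion (F : Set E4) : Prop :=
  ∀ (m : ℕ) (E : Set E4), MeasurableSet E → curvatureTowards F E < (m + 1) * sph (capOf E) →
    ∃ ξ : E4, ξ ∈ E ∧ ‖ξ‖ = 1 ∧ Pushes F ξ ∧ MorseSurf (push ξ '' F) m

/-- 4: lower bounds for all surfaces which cannot be changed into a surface with at most `m` maxima. -/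
def LowerBounds (F : Set E4) : Prop :=
  ∀ m : ℕ, (¬ ∃ F' : Set E4, ChangesTo F F' ∧ MorseSurf F' m) →
    (∀ᵐ ξ : sphere (0 : E4) 1 ∂sph, (m : ℕ∞) + 1 ≤ (InnerNormals F ξ).encard) ∧
    ∀ E : Set E4, MeasurableSet E → (m + 1) * sph (capOf E) ≤ curvatureTowards F E

/-- 5: the number of inner normals is lower semicontinuous. -/
def CountIsLowerSemicontinuous (F : Set E4) : Prop :=
  ∀ (k : ℕ) (ξ : E4), ‖ξ‖ = 1 → (k : ℕ∞) ≤ (InnerNormals F ξ).encard →
    ∃ ε : ℝ, 0 < ε ∧ ∀ η : E4, ‖η‖ = 1 → ‖η - ξ‖ < ε → (k : ℕ∞) ≤ (InnerNormals F η).encard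

/-- 6: quantisation. -/
def Quantisation (F : Set E4) : Prop :=
  ∀ᵐ ξ : sphere (0 : E4) 1 ∂sph, ∃ (N : ℕ) (ε : ℝ), 0 < ε ∧
    (∀ η : E4, ‖η‖ = 1 → ‖η - ξ‖ < ε → (InnerNormals F η).encard = N) ∧
    ∀ E : Set E4, MeasurableSet E → (∀ η ∈ E, ‖η - ξ‖ < ε) → curvatureTowards F E = N * sph (capOf E)

/-- 7: equivalent conditions for one surface. -/
def OneSurface (F : Set E4) (m : ℕ) : Prop :=
  List.TFAE [
    ∃ ξ : E4, ‖ξ‖ = 1 ∧ Pushes F ξ ∧ MorseSurf (push ξ '' F) m,
    ∃ E : Set E4, MeasurableSet E ∧ curvatureTowards F E < (m + 1) * sph (capOf E),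
    ¬ ∀ᵐ ξ : sphere (0 : E4) 1 ∂sph, (m : ℕ∞) + 1 ≤ (InnerNormals F ξ).encard,
    ∃ (ξ : E4) (ε : ℝ), ‖ξ‖ = 1 ∧ 0 < ε ∧
      ∀ η : E4, ‖η‖ = 1 → ‖η - ξ‖ < ε → (InnerNormals F η).encard ≤ m]

/-- 8: the characterisations of the surfaces which can be changed into one with at most `m` local maxima. -/
def Characterisation (F : Set E4) (m : ℕ) : Prop :=
  List.TFAE [
    ∃ F' : Set E4, ChangesTo F F' ∧ (0 : E4) ∉ F' ∧ MorseSurf F' m,
    ∃ F' : Set E4, ChangesTo F F' ∧ ∃ E : Set E4, MeasurableSet E ∧
      curvatureTowards F' E < (m + 1) * sph (capOf E),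
    ∃ F' : Set E4, ChangesTo F F' ∧ ¬ ∀ᵐ ξ : sphere (0 : E4) 1 ∂sph, (m : ℕ∞) + 1 ≤ (InnerNormals F' ξ).encard,
    ∃ F' : Set E4, ChangesTo F F' ∧ ∃ (ξ : E4) (ε : ℝ), ‖ξ‖ = 1 ∧ 0 < ε ∧
      ∀ η : E4, ‖η‖ = 1 → ‖η - ξ‖ < ε → (InnerNormals F' η).encard ≤ m]

theorem result :
    IndependentOfCircle ∧
    (∀ F : Set E4, PSurf F →
      AlmostEveryPoint F ∧ IntegralFormula F ∧ LocalCriterion F ∧ LowerBounds F ∧
        CountIsLowerSemicontinuous F ∧ Quantisation F ∧ ∀ m : ℕ, OneSurface F m) ∧
    (∀ (F : Set E4) (m : ℕ), Characterisation F m) ∧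
    -- 9: ribbon surfaces
    (∀ F : Set E4, (∃ F' : Set E4, ChangesTo F F' ∧ (0 : E4) ∉ F' ∧ MorseSurf F' 0) ↔
      ∃ F' : Set E4, ChangesTo F F' ∧ ∀ ξ : E4, InnerNormals F' ξ = ∅) := by
  refine ⟨fun φ U h z hz E L hL => Pool.Agent.H55HC.param h hz E L hL, fun F h => ?_,
    fun F m => ?_, fun F => ?_⟩
  · have hgen := Pool.Agent.H55HC.sgeneric_ae h
    have hpu : ∀ ξ : sphere (0 : E4) 1, Pool.Agent.H55HC.SGeneric F (ξ : E4) → Pushes F ξ :=
      fun ξ hξ => ⟨hξ.miss, hξ.surf, (hξ.sameType (by simp)).1⟩
    have h3 : ∀ (m : ℕ) (E : Set E4), MeasurableSet E →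
        curvatureTowards F E < (m + 1) * sph (capOf E) →
        ∃ ξ : E4, ξ ∈ E ∧ ‖ξ‖ = 1 ∧ Pushes F ξ ∧ MorseSurf (push ξ '' F) m := by
      intro m E hE hT
      obtain ⟨ξ, hξE, hξ, hξm⟩ := Pool.Agent.H55HC.slocal_criterion h hE m hT
      exact ⟨ξ, hξE, by simp, hpu ξ hξ, (hξ.morseSurf m).2 hξm⟩
    refine ⟨?_, ⟨fun E hE => Pool.Agent.H55HC.sformula h hE, Pool.Agent.H55HC.scurvTo_univ F⟩, h3,
      fun m hm => ⟨?_, ?_⟩, fun k ξ hξ hk => ?_, Pool.Agent.H55HC.squant h, fun m => ?_⟩
    · filter_upwards [hgen] with ξ hξ
      exact ⟨hpu ξ hξ, hξ.count, hξ.morseSurf⟩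
    · filter_upwards [hgen] with ξ hξ
      by_contra hcon
      have h4 : (InnerNormals F (ξ : E4)).encard ≤ m := by
        rw [not_le] at hcon
        exact Order.lt_add_one_iff_of_not_isMax (by simp) |>.1 hcon
      exact hm ⟨_, ⟨hξ.surf, (hpu ξ hξ).2.2⟩, (hξ.morseSurf m).2 h4⟩
    · intro E hE
      by_contra hcon
      rw [not_le] at hcon
      obtain ⟨ξ, -, -, h5, h7⟩ := h3 m E hE hcon
      exact hm ⟨_, ⟨h5.2.1, h5.2.2⟩, h7⟩
    · obtain ⟨ε, hε, h4⟩ := Metric.eventually_nhds_iff.1 (Pool.Agent.H55HC.slsc (F := F) hξ hk)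
      exact ⟨ε, hε, fun η hη hd => h4 (by rw [dist_eq_norm]; exact hd) hη⟩
    · unfold OneSurface
      simp only [Pushes, and_assoc]
      exact Pool.Agent.H55HC.sone_tfae h m
  · unfold Characterisation
    simp only [ChangesTo, and_assoc]
    exact Pool.Agent.H55HC.smaxima_tfae F m
  · simp only [ChangesTo, and_assoc]
    exact Pool.Agent.H55HC.sribbon_iff F

end Pool.Agent.Results.MP_177a0e_gt.SurfaceInnerNormals
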